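import Mathlib
import Pool.Agent.Lib.BridgeTheorem.Defs
import Pool.Agent.Lib.BridgeTheorem.Limits

/-!
# Bridge Theorem for amenable monoid actions on compact abelian groups (MP_699bc8_an, Q1)

`result`: along every left Følner net (more generally along every filter) of a cancellative
monoid `S`, `h_top(γ) = h_alg^r(γ^)` for every left action `γ` of `S` on a compact Hausdorff
abelian group `K` by continuous endomorphisms, both when the limits are read as `limsup` and when
they are read as `liminf`.  The definitions are in `Pool.Agent.Lib.BridgeTheorem.Defs`.

Proof in outline.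
* `lower_bound`: for a finite set `X` of characters and `δ > 0` there is an open cover `U` with
  `log |T_F(X)| ≤ log N(U_F) + δ |F|` for *every* finite `F`.
* `upper_bound`: for an open cover `U` and `δ > 0` there is a finite set `X` of characters with
  `log N(U_F) ≤ log 2 + log |T_F(X)| + δ |F|` for *every* finite `F`.
* Følner nets of an infinite cancellative monoid have `|F_i| → ∞`; in a finite one `F_i = S`
  eventually, and `finite_case` compares the two numbers directly.
-/

open Filter

namespace Pool.Agent.Results.MP_699bc8_an.BridgeTheorem

/-- **Bridge Theorem for amenable monoid actions on compact abelian groups.**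
For every cancellative monoid `S`, every compact Hausdorff abelian group `K`, every left action of
`S` on `K` by continuous endomorphisms and every left Følner net `(F_i)` of `S`, the topological
entropy of the action equals the algebraic entropy of the dual right action; both readings
(`limsup` and `liminf`) of the limits are covered. -/
theorem result {S K ι : Type*} [CancelMonoid S]
    [CommGroup K] [TopologicalSpace K] [IsTopologicalGroup K] [CompactSpace K] [T2Space K]
    [MulDistribMulAction S K] [ContinuousConstSMul S K]
    (l : Filter ι) [l.NeBot] (F : ι → Finset S) (hF : IsLeftFolner l F) :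
    hTopSup K l F = hAlgSup K l F ∧ hTopInf K l F = hAlgInf K l F := by
  refine ⟨le_antisymm ?_ ?_, le_antisymm ?_ ?_⟩
  · refine iSup₂_le fun U hU => limsup_le_aux _ _ fun δ hδ => ?_
    obtain ⟨X, hX, h⟩ := top_le_alg hF U hU hδ
    exact ⟨fun i => algRate (F i) X,
      le_iSup₂ (f := fun (X : Finset (PontryaginDual K)) (_ : X.Nonempty) =>
        limsup (fun i => (algRate (F i) X : EReal)) l) X hX, h⟩
  · refine iSup₂_le fun X hX => limsup_le_aux _ _ fun δ hδ => ?_
    obtain ⟨U, hU, h⟩ := alg_le_top hF X hX hδ
    exact ⟨fun i => topRate (F i) U,
      le_iSup₂ (f := fun (U : Finset (Set K)) (_ : IsOpenCover U) =>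
        limsup (fun i => (topRate (F i) U : EReal)) l) U hU, Eventually.of_forall h⟩
  · refine iSup₂_le fun U hU => liminf_le_aux _ _ fun δ hδ => ?_
    obtain ⟨X, hX, h⟩ := top_le_alg hF U hU hδ
    exact ⟨fun i => algRate (F i) X,
      le_iSup₂ (f := fun (X : Finset (PontryaginDual K)) (_ : X.Nonempty) =>
        liminf (fun i => (algRate (F i) X : EReal)) l) X hX, h⟩
  · refine iSup₂_le fun X hX => liminf_le_aux _ _ fun δ hδ => ?_
    obtain ⟨U, hU, h⟩ := alg_le_top hF X hX hδ
    exact ⟨fun i => topRate (F i) U,
      le_iSup₂ (f := fun (U : Finset (Set K)) (_ : IsOpenCover U) =>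
        liminf (fun i => (topRate (F i) U : EReal)) l) U hU, Eventually.of_forall h⟩

end Pool.Agent.Results.MP_699bc8_an.BridgeTheorem
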